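import Mathlib
import Pool.Agent.R250.ThreeBallsDefs
import Pool.Agent.R250.ThreeBallsE

/-!
Three-balls inequality with the Hadamard exponent `β = log r / log ρ`: for every `n ≥ 2` and every
`0 < ρ < r < 1`, a finite constant `K` with `‖u‖_r ≤ K ‖u‖_ρ ^ β` for all `u ∈ H` exists if and only
if `n = 2`.

Plane: with `u = Σ a_k |z|^{|k|} e^{ikθ}` one has `|a_k| ≤ min(1, ‖u‖_ρ ρ^{-|k|})`, and summing gives
the bound with `K = 1 + 2 (1/(r-ρ) + 1/(1-r))`.

Dimension `n ≥ 3`: the averages of `z^N (1-z²)(z²-ρ²)`, `z = x₃ + i (x₁ cos φ + x₂ sin φ)`, over `φ`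
have sup norm `O(N^{-1/2})` on the unit ball and `O(ρ^N N^{-1/2})` on `B(0,ρ)`, but equal
`r^N (1-r²)(r²-ρ²)` at the pole of the sphere of radius `r`.
-/

open Pool.Agent.R250.ThreeBalls in
/-- For every `n ≥ 2` and `0 < ρ < r < 1`: the three-balls inequality with the Hadamard exponent
holds with some finite constant if and only if `n = 2`. -/
theorem Pool.Agent.Results.MP_1096cc_an.FiniteConstantIffPlanar.result :
    ∀ n : ℕ, 2 ≤ n → ∀ ρ r : ℝ, 0 < ρ → ρ < r → r < 1 →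
      ((∃ K : ℝ, ∀ u : EuclideanSpace ℝ (Fin n) → ℂ, IsH u →
        supNorm u r ≤ K * (supNorm u ρ) ^ (Real.log r / Real.log ρ)) ↔ n = 2) := by
  intro n hn ρ r hρ0 hρr hr1
  constructor
  · rintro ⟨K, hK⟩
    by_contra hne
    obtain ⟨u, hu, hlt⟩ := no_const (n := n) (by omega) hρ0 hρr hr1 K
    exact absurd (hK u hu) (not_le.mpr hlt)
  · rintro rfl
    exact ⟨1 + 2 * S0 ρ r, fun u hu => planar_const hρ0 hρr hr1 u hu⟩
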